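import Pool.Agent.Helper68.KPR.St

set_option autoImplicit false

namespace Pool.Agent.Helper61.KPR

open Pool.Agent.Helper68.KPR

/-- choice of the prime `g` and of the localization -/
private lemma rva_prime {P K L : Type} [CommRing P] [IsDomain P] [UniqueFactorizationMonoid P]
    [Field K] [Algebra P K] [IsFractionRing P K] [Field L] [Algebra P L] [Algebra K L]
    [IsScalarTower P K L] (x : L) (halgK : IsIntegral K x) (hint : ¬ IsIntegral P x) :
    ∃ (g : P), Prime g ∧ ∀ (R : Type) [CommRing R] [IsDomain R] [Algebra P R] [Algebra R K]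
      [Algebra R L] [IsScalarTower P R K] [IsScalarTower R K L] [IsFractionRing R K]
      [IsIntegrallyClosed R],
      (∀ r : R, ∃ c s : P, ¬ g ∣ s ∧ algebraMap R K r * algebraMap P K s = algebraMap P K c) →
      ¬ IsIntegral R x := by
  have h1 : ∃ i, (minpoly K x).coeff i ∉ Set.range (algebraMap P K) := by
    by_contra! h
    apply hint
    have hl : minpoly K x ∈ Polynomial.lifts (algebraMap P K) :=
      (Polynomial.lifts_iff_coeff_lifts _).2 h
    obtain ⟨q, hq, hd, hm⟩ := Polynomial.lifts_and_degree_eq_and_monic hl (minpoly.monic halgK)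
    refine ⟨q, hm, ?_⟩
    have h2 : Polynomial.aeval x (q.map (algebraMap P K)) = 0 := by
      rw [hq]; exact minpoly.aeval K x
    rw [Polynomial.aeval_map_algebraMap] at h2
    exact h2
  obtain ⟨i, hi⟩ := h1
  obtain ⟨c, d, hcd, hmk⟩ := IsFractionRing.exists_reduced_fraction (A := P)
    ((minpoly K x).coeff i)
  have hd : ¬ IsUnit (d : P) := by
    intro hu
    apply hi
    obtain ⟨u, hu⟩ := hu
    refine ⟨c * (u⁻¹ : Pˣ), ?_⟩
    rw [← hmk, eq_comm, IsLocalization.mk'_eq_iff_eq_mul, ← map_mul, ← hu]
    simp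
  obtain ⟨g, hg, hgd⟩ := WfDvdMonoid.exists_irreducible_factor hd (nonZeroDivisors.ne_zero d.2)
  have hgp : Prime g := hg.prime
  refine ⟨g, hgp, ?_⟩
  intro R _ _ _ _ _ _ _ _ _ hR hx
  have h3 := minpoly.isIntegrallyClosed_eq_field_fractions' K hx
  have h4 : (minpoly K x).coeff i = algebraMap R K ((minpoly R x).coeff i) := by
    rw [h3, Polynomial.coeff_map]
  obtain ⟨c', s, hs', h6⟩ := hR ((minpoly R x).coeff i)
  rw [← h4] at h6
  have hs0 : algebraMap P K s ≠ 0 := by
    intro h0
    apply hs'
    have : s = 0 := (IsFractionRing.injective P K) (by rw [h0, map_zero])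
    rw [this]; exact dvd_zero g
  have hd0 : algebraMap P K (d : P) ≠ 0 := by
    intro h0
    have : (d : P) = 0 := (IsFractionRing.injective P K) (by rw [h0, map_zero])
    exact nonZeroDivisors.ne_zero d.2 this
  have h7 : c * s = c' * d := by
    apply IsFractionRing.injective P K
    rw [map_mul, map_mul]
    rw [← hmk, IsFractionRing.mk'_eq_div, div_mul_eq_mul_div, div_eq_iff hd0] at h6
    exact h6
  have h8 : g ∣ c * s := by rw [h7]; exact Dvd.dvd.mul_left hgd c'
  rcases hgp.dvd_or_dvd h8 with h9 | h9
  · exact hg.not_isUnit (hcd h9 hgd)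
  · exact hs' h9

private lemma rva_dvr {P R : Type} [CommRing P] [IsDomain P] [IsNoetherianRing P]
    [CommRing R] [IsDomain R] [Algebra P R] (g : P) (hg : Prime g) (hp : (Ideal.span {g}).IsPrime)
    (hloc : IsLocalization.AtPrime R (Ideal.span {g})) (hinj : Function.Injective (algebraMap P R)) :
    IsDiscreteValuationRing R ∧ Irreducible (algebraMap P R g) := by
  have : IsLocalRing R := IsLocalization.AtPrime.isLocalRing R (Ideal.span {g})
  have hnoe : IsNoetherianRing R :=
    IsLocalization.isNoetherianRing (Ideal.span {g}).primeCompl R inferInstance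
  have hm : IsLocalRing.maximalIdeal R = Ideal.span {algebraMap P R g} := by
    rw [← IsLocalization.AtPrime.map_eq_maximalIdeal (Ideal.span {g}) R, Ideal.map_span,
      Set.image_singleton]
  have hg0 : algebraMap P R g ≠ 0 := by
    intro h
    exact hg.ne_zero (hinj (by rw [h, map_zero]))
  have hprinc : (IsLocalRing.maximalIdeal R).IsPrincipal := by
    rw [hm]; exact ⟨⟨_, rfl⟩⟩
  have hpid : IsPrincipalIdealRing R :=
    ((tfae_of_isNoetherianRing_of_isLocalRing_of_isDomain R).out 4 0).1 hprinc
  have hne : IsLocalRing.maximalIdeal R ≠ ⊥ := by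
    rw [hm, Ne, Ideal.span_singleton_eq_bot]; exact hg0
  have hdvr : IsDiscreteValuationRing R := { hpid with not_a_field' := hne }
  refine ⟨hdvr, ?_⟩
  rw [IsDiscreteValuationRing.irreducible_iff_uniformizer]
  exact hm

open IsDedekindDomain in
/-- the denominator trick -/
private lemma rva_frac {S L : Type} [CommRing S] [IsDedekindDomain S] [Field L]
    [Algebra S L] [IsFractionRing S L] (Q : HeightOneSpectrum S) (x : L)
    (hx : Q.valuation L x ≤ 1) :
    ∃ σ τ : S, τ ∉ Q.asIdeal ∧ x * algebraMap S L τ = algebraMap S L σ := by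
  obtain ⟨⟨α, β⟩, hab⟩ := IsLocalization.surj (nonZeroDivisors S) x
  have hβ : (β : S) ≠ 0 := nonZeroDivisors.ne_zero β.2
  dsimp only at hab
  have hI : Ideal.span {(β : S)} ≠ 0 := by
    rw [Ne, Ideal.zero_eq_bot, Ideal.span_singleton_eq_bot]; exact hβ
  obtain ⟨b, B, hB, hIB⟩ := WfDvdMonoid.max_power_factor hI Q.irreducible
  have h1 : Q.intValuation α ≤ WithZero.exp (-(b : ℤ)) := by
    have h2 : Q.intValuation (β : S) ≤ WithZero.exp (-(b : ℤ)) := by
      rw [Q.intValuation_le_pow_iff_mem]
      have h3 : (β : S) ∈ Ideal.span {(β : S)} := Ideal.mem_span_singleton_self _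
      rw [hIB] at h3
      have h3' : Q.asIdeal ^ b * B ≤ Q.asIdeal ^ b := Ideal.mul_le_left
      exact h3' h3
    have h4 : Q.valuation L (algebraMap S L α) = Q.valuation L x *
        Q.valuation L (algebraMap S L β) := by
      rw [← hab, map_mul]
    have h5 : Q.valuation L (algebraMap S L α) ≤ Q.valuation L (algebraMap S L β) := by
      rw [h4]; exact mul_le_of_le_one_left' hx
    have h6 : Q.valuation L (algebraMap S L α) = Q.intValuation α := Q.valuation_of_algebraMap α
    have h7 : Q.valuation L (algebraMap S L (β : S)) = Q.intValuation (β : S) :=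
      Q.valuation_of_algebraMap (β : S)
    rw [h6, h7] at h5
    exact h5.trans h2
  rw [Q.intValuation_le_pow_iff_mem] at h1
  have h8 : ¬ B ≤ Q.asIdeal := fun h => hB (Ideal.dvd_iff_le.2 h)
  obtain ⟨τ, hτB, hτQ⟩ := SetLike.not_le_iff_exists.1 h8
  have h9 : α * τ ∈ Ideal.span {(β : S)} := by
    rw [hIB]; exact Ideal.mul_mem_mul h1 hτB
  obtain ⟨σ, hσ⟩ := Ideal.mem_span_singleton.1 h9
  refine ⟨σ, τ, hτQ, ?_⟩
  have hβL : algebraMap S L (β : S) ≠ 0 := by
    intro h0
    exact hβ (IsFractionRing.injective S L (by rw [h0, map_zero]))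
  apply mul_left_cancel₀ hβL
  rw [← map_mul, ← hσ, map_mul, ← hab]
  ring

open IsDedekindDomain in
private lemma rva_core (hRDF : StRDF) (P D K L R : Type) [CommRing P] [IsDomain P]
    [Algebra ℚ P] [CommRing D] [IsDomain D] [IsIntegrallyClosed D]
    [Algebra P D] [Algebra.IsIntegral P D] [FaithfulSMul P D] [Field K] [Algebra P K]
    [IsFractionRing P K] [Field L] [Algebra D L] [IsFractionRing D L] [Algebra P L]
    [IsScalarTower P D L] [Algebra K L] [IsScalarTower P K L] [FiniteDimensional K L]
    [CommRing R] [IsDomain R] [IsDiscreteValuationRing R] [Algebra P R] [Algebra R K]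
    [Algebra R L] [IsScalarTower P R K] [IsScalarTower R K L] [IsScalarTower P R L]
    [IsFractionRing R K] (g : P) (hg : Prime g) (hp : (Ideal.span {g}).IsPrime)
    (hloc : IsLocalization.AtPrime R (Ideal.span {g})) (hirr : Irreducible (algebraMap P R g))
    (x : L) (hxR : ¬ IsIntegral R x) :
    ∃ (v : L → ℤ), Va P D L g v ∧
    v x < 0 ∧ ∀ y : L, y ≠ 0 →
      (∀ b : D, ∃ p : P, Algebra.trace K L (y * algebraMap D L b) = algebraMap P K p) →
      1 ≤ v y + v (algebraMap D L (algebraMap P D g)) := by
  have hPK : Function.Injective (algebraMap P K) := IsFractionRing.injective P K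
  have hPL : Function.Injective (algebraMap P L) := by
    rw [IsScalarTower.algebraMap_eq P K L]
    exact (algebraMap K L).injective.comp hPK
  have hDL : Function.Injective (algebraMap D L) := IsFractionRing.injective D L
  have hRL : Function.Injective (algebraMap R L) := by
    rw [IsScalarTower.algebraMap_eq R K L]
    exact (algebraMap K L).injective.comp (IsFractionRing.injective R K)
  have hch : CharZero P := algebraRat.charZero P
  have hchK : CharZero K := charZero_of_injective_algebraMap hPK
  let _ : Algebra ℚ R := ((algebraMap P R).comp (algebraMap ℚ P)).toAlgebra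
  have hsep : Algebra.IsSeparable K L := inferInstance
  let S := integralClosure R L
  have hS1 : IsDedekindDomain S := integralClosure.isDedekindDomain R K L
  have hS2 : IsFractionRing S L := integralClosure.isFractionRing_of_finite_extension K L
  have hS3 : Module.Finite R S := IsIntegralClosure.finite R K L S
  have hxS : x ∉ (algebraMap S L).range := by
    rintro ⟨s, hs⟩
    apply hxR
    rw [← hs]
    exact s.2
  obtain ⟨Q, hQ⟩ : ∃ Q : HeightOneSpectrum S, ¬ Q.valuation L x ≤ 1 := by
    by_contra! h
    exact hxS (HeightOneSpectrum.mem_integers_of_valuation_le_one L x h)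
  rw [not_le] at hQ
  have hne : ∀ u : L, u ≠ 0 → Q.valuation L u ≠ 0 := fun u hu => (Valuation.ne_zero_iff _).2 hu
  have hSle : ∀ u : L, IsIntegral R u → Q.valuation L u ≤ 1 := by
    intro u hu
    exact Q.valuation_le_one (⟨u, hu⟩ : S)
  have hvS : ∀ u : S, Q.valuation L (algebraMap S L u) = Q.intValuation u :=
    fun u => Q.valuation_of_algebraMap u
  -- nonnegative values
  have hlog : ∀ u : L, u ≠ 0 → (0 ≤ - WithZero.log (Q.valuation L u) ↔ Q.valuation L u ≤ 1) := by
    intro u hu
    rw [neg_nonneg, ← WithZero.log_one, WithZero.log_le_log (hne u hu) one_ne_zero]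
  have hlog1 : ∀ u : L, Q.valuation L u = 1 → - WithZero.log (Q.valuation L u) = 0 := by
    intro u hu
    rw [hu, WithZero.log_one, neg_zero]
  -- units
  have hPu : ∀ p : P, ¬ g ∣ p → Q.valuation L (algebraMap P L p) = 1 := by
    intro p hgp
    have h1 : IsUnit (algebraMap P R p) := by
      apply IsLocalization.map_units R (⟨p, ?_⟩ : (Ideal.span {g}).primeCompl)
      exact fun h => hgp (Ideal.mem_span_singleton.1 h)
    obtain ⟨u, hu⟩ := h1
    have h2 : Q.valuation L (algebraMap R L (u : R)) ≤ 1 := hSle _ isIntegral_algebraMap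
    have h3 : Q.valuation L (algebraMap R L ((u⁻¹ : Rˣ) : R)) ≤ 1 := hSle _ isIntegral_algebraMap
    have h4 : Q.valuation L (algebraMap R L (u : R)) *
        Q.valuation L (algebraMap R L ((u⁻¹ : Rˣ) : R)) = 1 := by
      rw [← map_mul, ← map_mul, Units.mul_inv, map_one, map_one]
    rw [IsScalarTower.algebraMap_apply P R L, ← hu]
    apply le_antisymm h2
    rw [← h4]
    exact mul_le_of_le_one_right' h3
  -- elements of `D`
  have hDi : ∀ b : D, IsIntegral R (algebraMap D L b) := by
    intro b
    have h1 : IsIntegral P (algebraMap D L b) := (Algebra.IsIntegral.isIntegral b).algebraMap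
    exact h1.tower_top
  -- denominators
  have hden : ∀ σ : S, ∃ (t : P) (b : D), ¬ g ∣ t ∧
      algebraMap P L t * algebraMap S L σ = algebraMap D L b := by
    intro σ
    obtain ⟨t, ht⟩ := IsIntegral.exists_multiple_integral_of_isLocalization
      (Ideal.span {g}).primeCompl (Rₘ := R) (algebraMap S L σ) σ.2
    have h1 : IsIntegral D (t • algebraMap S L σ) := ht.tower_top
    obtain ⟨b, hb⟩ := (IsIntegrallyClosed.isIntegral_iff (R := D) (K := L)).1 h1
    refine ⟨t, b, ?_, ?_⟩
    · intro h
      exact t.2 (Ideal.mem_span_singleton.2 h)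
    · rw [hb, Submonoid.smul_def, Algebra.smul_def]
  refine ⟨fun u => - WithZero.log (Q.valuation L u), ⟨?_, ?_, ?_, ?_, ?_⟩, ?_, ?_⟩
  · intro u w hu hw
    rw [map_mul, WithZero.log_mul (hne u hu) (hne w hw)]
    ring
  · intro b hb
    have hb' : algebraMap D L b ≠ 0 := by
      intro h0
      exact hb (hDL (by rw [h0, map_zero]))
    exact (hlog _ hb').2 (hSle _ (hDi b))
  · intro p hgp
    apply hlog1
    rw [← IsScalarTower.algebraMap_apply P D L]
    exact hPu p hgp
  · intro u hu hu0
    obtain ⟨σ, τ, hτ, hστ⟩ := rva_frac Q u ((hlog u hu).1 hu0)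
    obtain ⟨t, b, ht, htb⟩ := hden σ
    obtain ⟨t', h, ht', hth⟩ := hden τ
    have hτ1 : Q.valuation L (algebraMap S L τ) = 1 := by
      rw [hvS]
      exact (Q.intValuation_eq_one_iff).2 hτ
    have hh : algebraMap D L (algebraMap P D t * h) ≠ 0 := by
      have h5 : Q.valuation L (algebraMap D L (algebraMap P D t * h)) = 1 := by
        rw [map_mul, ← IsScalarTower.algebraMap_apply P D L, ← hth, map_mul, map_mul, hPu t ht,
          hPu t' ht', hτ1, one_mul, one_mul]
      intro h0
      rw [h0, map_zero] at h5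
      exact zero_ne_one h5
    refine ⟨algebraMap P D t' * b, algebraMap P D t * h, ?_, ?_, ?_⟩
    · intro h0
      exact hh (by rw [h0, map_zero])
    · apply hlog1
      rw [map_mul, ← IsScalarTower.algebraMap_apply P D L, ← hth, map_mul, map_mul, hPu t ht,
          hPu t' ht', hτ1, one_mul, one_mul]
    · rw [map_mul, map_mul, ← IsScalarTower.algebraMap_apply P D L,
        ← IsScalarTower.algebraMap_apply P D L, ← hth, ← htb, ← hστ]
      ring
  · obtain ⟨π, hπ⟩ := Q.valuation_exists_uniformizer L
    refine ⟨π, ?_, ?_⟩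
    · rintro rfl
      rw [map_zero] at hπ
      exact WithZero.exp_ne_zero hπ.symm
    · rw [hπ, WithZero.log_exp]
      norm_num
  · have h1 : x ≠ 0 := by
      rintro rfl
      rw [map_zero] at hQ
      exact absurd hQ (by simp)
    have h2 := (hlog x h1).not.2 (not_le.2 hQ)
    exact not_le.1 h2
  · intro y hy hT
    have hg0 : algebraMap P L g ≠ 0 := by
      intro h0
      exact hg.ne_zero (hPL (by rw [h0, map_zero]))
    have h1 : ∀ s : S, ∃ ρ : R, Algebra.trace K L (y * algebraMap S L s) = algebraMap R K ρ := by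
      intro s
      obtain ⟨t, b, ht, htb⟩ := hden s
      obtain ⟨p, hp'⟩ := hT b
      have h2 : IsUnit (algebraMap P R t) := by
        apply IsLocalization.map_units R (⟨t, ?_⟩ : (Ideal.span {g}).primeCompl)
        exact fun h => ht (Ideal.mem_span_singleton.1 h)
      obtain ⟨u, hu⟩ := h2
      refine ⟨((u⁻¹ : Rˣ) : R) * algebraMap P R p, ?_⟩
      have h3 : y * algebraMap D L b = (algebraMap P K t) • (y * algebraMap S L s) := by
        rw [← htb, Algebra.smul_def, ← IsScalarTower.algebraMap_apply P K L]
        ring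
      rw [h3, map_smul, smul_eq_mul, IsScalarTower.algebraMap_apply P R K, ← hu,
        IsScalarTower.algebraMap_apply P R K] at hp'
      have h4 : algebraMap R K (u : R) ≠ 0 := by
        intro h0
        exact u.ne_zero (IsFractionRing.injective R K (by rw [h0, map_zero]))
      apply mul_left_cancel₀ h4
      rw [hp', map_mul, ← mul_assoc, ← map_mul, Units.mul_inv, map_one, one_mul]
    have hfs : FaithfulSMul R L := (faithfulSMul_iff_algebraMap_injective R L).2 hRL
    have htf : Module.IsTorsionFree R S := inferInstance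
    have h5 := hRDF R S K L (algebraMap P R g) hirr Q y h1
    rw [← IsScalarTower.algebraMap_apply P R L] at h5
    have h6 : algebraMap P L g * y ≠ 0 := mul_ne_zero hg0 hy
    have h7 : WithZero.log (Q.valuation L (algebraMap P L g * y)) < 0 := by
      rw [← WithZero.log_one, WithZero.log_lt_log (hne _ h6) one_ne_zero]
      exact h5
    rw [map_mul, WithZero.log_mul (hne _ hg0) (hne _ hy)] at h7
    rw [← IsScalarTower.algebraMap_apply P D L]
    dsimp only
    omega

/-- MODULE RVA -/
theorem hRVA (hRDF : StRDF) : StRVA := by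
  intro P D K L _ _ _ _ _ _ _ _ _ _ _ _ _ _ _ _ _ _ _ _ _ _ x hx
  have hPK : Function.Injective (algebraMap P K) := IsFractionRing.injective P K
  have halgK : IsIntegral K x := Algebra.IsIntegral.isIntegral x
  have hint : ¬ IsIntegral P x := by
    intro h
    have h1 : IsIntegral D x := h.tower_top
    obtain ⟨b, hb⟩ := (IsIntegrallyClosed.isIntegral_iff (R := D) (K := L)).1 h1
    exact hx ⟨b, hb⟩
  obtain ⟨g, hg, hR⟩ := rva_prime x halgK hint
  have hp : (Ideal.span {g}).IsPrime := (Ideal.span_singleton_prime hg.ne_zero).2 hg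
  have hS : (Ideal.span {g}).primeCompl ≤ nonZeroDivisors P :=
    (Ideal.span {g}).primeCompl_le_nonZeroDivisors
  let R := Localization.subalgebra.ofField K (Ideal.span {g}).primeCompl hS
  have hloc : IsLocalization (Ideal.span {g}).primeCompl R :=
    Localization.subalgebra.isLocalization_ofField K (Ideal.span {g}).primeCompl hS
  have hfr : IsFractionRing R K :=
    Localization.subalgebra.isFractionRing_ofField K (Ideal.span {g}).primeCompl hS
  have hinj : Function.Injective (algebraMap P R) := by
    intro a b hab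
    apply hPK
    have := congrArg (algebraMap R K) hab
    rwa [← IsScalarTower.algebraMap_apply P R K, ← IsScalarTower.algebraMap_apply P R K] at this
  obtain ⟨hdvr, hirr⟩ := rva_dvr (R := R) g hg hp hloc hinj
  have hxR : ¬ IsIntegral R x := by
    apply hR R
    intro r
    obtain ⟨c, s, hs, h6⟩ := r.2
    have hs' : ¬ g ∣ s := fun h => hs (Ideal.mem_span_singleton.2 h)
    refine ⟨c, s, hs', ?_⟩
    have hs0 : algebraMap P K s ≠ 0 := by
      intro h0
      apply hs'
      have : s = 0 := hPK (by rw [h0, map_zero])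
      rw [this]; exact dvd_zero g
    have h7 : algebraMap R K r = algebraMap P K c * (algebraMap P K s)⁻¹ := h6
    rw [h7, mul_assoc, inv_mul_cancel₀ hs0, mul_one]
  obtain ⟨v, h⟩ := rva_core hRDF P D K L R g hg hp hloc hirr x hxR
  exact ⟨g, v, hg, h⟩

end Pool.Agent.Helper61.KPR
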